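import Pool.Agent.W619.Y.PFin

/-! Kodaira dimension equals numerical dimension for pairs on quotients of products of a variety and
curves. -/

set_option autoImplicit false
set_option linter.overlappingInstances false

universe u

open FF IntermediateField Pool.Agent.W619.PQ Pool.Agent.W619.PL Pool.Agent.W619.TW
  Pool.Agent.W619.X Pool.Agent.W619.Y

namespace Pool.Agent.Results.MP_e23cd6_ag.MixedPairQuotients

/-- Let `Y` be a projective variety of dimension `d` with function field `M` (for instance a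
point), `F i` (`i < n`) the function fields of curves `C i`, `Z` the product of `Y` and the curves,
with function field `L` (`hsup`), `G` a finite group of automorphisms of `L` which permutes the
curves through `σ`, `X` a projective manifold birational to `Z / G`, and `Δ` an effective
`ℚ`-divisor on `X`, with multiplicity `δ v` along the divisor `v`. Let `P` be the set of the indices
of the curves of genus at least two, and assume that `Δ` is at most the pull-back of a divisor from
the quotient of the product of the curves in `P`. Assume `MixedPos`, for instance that the fixed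
locus of each `g ≠ 1` in `G` on the product of the curves is empty or of codimension at least `7`.
Assume `κ (Y) = ν (Y) = a`. If `K_X + Δ` is pseudo-effective, in particular if it is nef, then
no curve is rational and `κ (K_X + Δ) = ν (K_X + Δ) = a + |P|`. -/
theorem result {L : Type u} [Field L] [Algebra ℂ L] (d n : ℕ)
    (hn : Algebra.trdeg ℂ L = (d + n : ℕ))
    (M : IntermediateField ℂ L) [Algebra.EssFiniteType ℂ M] (hM : Algebra.trdeg ℂ M = d)
    (F : Fin n → IntermediateField ℂ L) (hF : ∀ i, IsFF ℂ (F i))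
    (hsup : M ⊔ (⨆ i, F i) = ⊤)
    (G : Subgroup (L ≃ₐ[ℂ] L)) [Finite G] (σ : G →* Equiv.Perm (Fin n))
    (hσ : ∀ (g : G) i, ∀ z ∈ F i, (g : L ≃ₐ[ℂ] L) z ∈ F (σ g i)) (h : MixedPos G σ F)
    (δ : Place ℂ (fixedField G) → ℚ) (hδ : ∀ v, 0 ≤ δ v) (P : Set (Fin n))
    (hP : ∀ i, i ∈ P ↔ (¬ ∃ t : F i, ℂ⟮t⟯ = ⊤) ∧ ¬ IsElliptic (F i))
    (hδP : BoundedBy (⨆ i : P, F i) (d + n) δ)
    (a : ℕ) (ha : KodTr ℂ M d a) (hν : NumLe ℂ M d (fun _ => False) a)
    (hpe : PairPsef ℂ (fixedField G) (d + n) δ) :
    (∀ i, ¬ ∃ t : F i, ℂ⟮t⟯ = ⊤) ∧ PairKodGe ℂ (fixedField G) (d + n) δ (a + P.ncard) ∧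
      PairNumLe ℂ (fixedField G) (d + n) δ (a + P.ncard) := by
  obtain ⟨h1, h2⟩ := pairF d n hn M hM F hsup G σ hσ h δ hδ P hP hδP
  have h3 : ∀ i, ¬ ∃ t : F i, ℂ⟮t⟯ = ⊤ := fun i hi => h1 ⟨i, hi⟩ hpe
  exact ⟨h3, h2 h3 a ha hν⟩

end Pool.Agent.Results.MP_e23cd6_ag.MixedPairQuotients
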