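import Pool.Agent.W619.X.Fin

/-! Kodaira dimension equals numerical dimension for pairs on quotients of products of curves. -/

set_option autoImplicit false
set_option linter.overlappingInstances false

universe u

open FF IntermediateField Pool.Agent.W619.PQ Pool.Agent.W619.PL Pool.Agent.W619.TW
  Pool.Agent.W619.X

namespace Pool.Agent.Results.MP_e23cd6_ag.PairProductQuotients

/-- Let `L` be the function field of a product of `n` curves `C i` with function fields `F i`, `G` a
finite group of automorphisms of `L` preserving each `F i`, `X` a projective manifold birational to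
the quotient of the product by `G`, and `Δ` an effective `ℚ`-divisor on `X`, with multiplicity `δ v`
along the divisor `v`. Let `P` be a set of indices such that `Δ` is at most the pull-back of a
divisor from the quotient of the product of the curves in `P`; for `i` in `P` let `C i` be
irrational, and of genus at least two or such that `Δ` contains a positive multiple of a fibre of
`X → C i / G`; for `i` not in `P` let `C i` be elliptic or rational. Assume `PairCond`, for instance
that each `g ≠ 1` in `G` moves at least `7` of the curves, or that each `g ≠ 1` moves at least `2`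
of the curves and each `C i / G` is irrational or has at least `5` branch points. If `K_X + Δ` is
pseudo-effective, in particular if it is nef, then no curve is rational and
`κ (K_X + Δ) = ν (K_X + Δ) = |P|`. -/
theorem result {L : Type u} [Field L] [Algebra ℂ L] (n : ℕ) (hn : Algebra.trdeg ℂ L = n)
    (F : Fin n → IntermediateField ℂ L) (hF : ∀ i, IsFF ℂ (F i))
    (hsup : ⨆ i, F i = ⊤)
    (G : Subgroup (L ≃ₐ[ℂ] L)) [Finite G] (hst : ∀ i, ∀ g ∈ G, ∀ z ∈ F i, g z ∈ F i)
    (δ : Place ℂ (fixedField G) → ℚ) (hδ : ∀ v, 0 ≤ δ v) (P : Set (Fin n))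
    (hδP : BoundedBy (⨆ i : P, F i) n δ)
    (hP : ∀ i ∈ P, (¬ ∃ t : F i, ℂ⟮t⟯ = ⊤) ∧ (¬ IsElliptic (F i) ∨
      ContainsFibre (inf_le_right : F i ⊓ fixedField G ≤ fixedField G) δ))
    (hQ : ∀ i ∉ P, (∃ t : F i, ℂ⟮t⟯ = ⊤) ∨ IsElliptic (F i))
    (h : PairCond G F δ) (hpe : PairPsef ℂ (fixedField G) n δ) :
    (∀ i, ¬ ∃ t : F i, ℂ⟮t⟯ = ⊤) ∧ PairKodGe ℂ (fixedField G) n δ P.ncard ∧
      PairNumLe ℂ (fixedField G) n δ P.ncard := by
  have h1 := pairC n hn F hF (alg_of_sup F hsup) G hst δ hδ P hP hQ h
  have h2 : ∀ i, ¬ ∃ t : F i, ℂ⟮t⟯ = ⊤ := fun i hi => h1.2 hsup ⟨i, hi⟩ hδP hpe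
  exact ⟨h2, (h1.1 h2).1, (h1.1 h2).2 hsup hδP⟩

end Pool.Agent.Results.MP_e23cd6_ag.PairProductQuotients
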